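import Pool.Agent.V1181.WCO4

/-!
# MP_07ea7a_an: every chaotic weighted composition operator on smooth functions is mixing
-/

set_option autoImplicit false

namespace Pool.Agent.Results.MP_07ea7a_an.ChaoticMixing

open Pool.Agent.V1181.WCO

/-- **Answer to Q1 (proved).** For every `d`, every open `Ω ⊆ ℝ^d` and all smooth `ω : Ω → 𝕂`,
`ψ : Ω → Ω` (`𝕂 = ℝ` or `ℂ`), if the weighted composition operator `f ↦ ω · (f ∘ ψ)` is chaotic on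
`C^∞(Ω, 𝕂)`, then it is mixing.  Moreover `ψ` is then strongly run-away. -/
theorem result (𝕂 : Type) [RCLike 𝕂] (d : ℕ) (Ω : Set (EuclideanSpace ℝ (Fin d)))
    (hΩ : IsOpen Ω) (ω : EuclideanSpace ℝ (Fin d) → 𝕂)
    (ψ : EuclideanSpace ℝ (Fin d) → EuclideanSpace ℝ (Fin d))
    (hω : ContDiffOn ℝ (⊤ : ℕ∞) ω Ω) (hψ : ContDiffOn ℝ (⊤ : ℕ∞) ψ Ω) (hmaps : Set.MapsTo ψ Ω Ω)
    (hchaotic : Chaotic Ω ω ψ) :
    Mixing Ω ω ψ ∧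
      ∀ K ⊆ Ω, IsCompact K → ∃ n₀ : ℕ, ∀ n ≥ n₀, (ψ^[n] '' K) ∩ K = ∅ := by
  obtain ⟨ht, hd⟩ := hchaotic
  have hrun : ∀ K ⊆ Ω, IsCompact K → ∃ n₀ : ℕ, ∀ n ≥ n₀, ∀ x ∈ K, ψ^[n] x ∉ K :=
    fun K hK hKc => strong_runaway hΩ hmaps hψ hω ht hd hK hKc
  refine ⟨mixing_of hΩ hmaps hψ hω (fun x hx => omega_ne ht hx) (psi_inj ht hmaps hψ hω)
    (fun a ha v hv => dpsi_inj hΩ ht hmaps hψ hω ha hv) hrun, fun K hK hKc => ?_⟩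
  obtain ⟨n₀, hn₀⟩ := hrun K hK hKc
  refine ⟨n₀, fun n hn => ?_⟩
  rw [Set.eq_empty_iff_forall_notMem]
  rintro y ⟨⟨x, hx, rfl⟩, hy⟩
  exact hn₀ n hn x hx hy

end Pool.Agent.Results.MP_07ea7a_an.ChaoticMixing
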